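import Mathlib

/-!
# Project GL: disjoint maximal chains through the atoms of an infinite geometric lattice
(frozen S07685 of MP_246c79_co)

Everything is stated with a rank function `rk : L → ℕ` (structure `RkData`).
-/

set_option autoImplicit false

namespace Pool.Agent.W555.GL

open Cardinal

/-- A rank function on an atomistic semimodular lattice of rank `r`. -/
structure RkData (L : Type) [CompleteLattice L] (rk : L → ℕ) (r : ℕ) : Prop where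
  bot : rk ⊥ = 0
  top : rk ⊤ = r
  mono : ∀ x y : L, x < y → rk x < rk y
  atom : ∀ x a : L, IsAtom a → ¬ a ≤ x → rk (x ⊔ a) = rk x + 1
  gen : ∀ x y : L, x < y → ∃ a : L, IsAtom a ∧ a ≤ y ∧ ¬ a ≤ x

/-- The atoms below `z`. -/
def pts {L : Type} [CompleteLattice L] (z : L) : Set L := {a | IsAtom a ∧ a ≤ z}

/-- The covers of `G` inside the interval below `F`. -/
def covs {L : Type} [CompleteLattice L] (F G : L) : Set L := {D | G ⋖ D ∧ D ≤ F}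

/-- A flag with exactly the ranks `lo, ..., hi - 1`. -/
def IsFlag {L : Type} [CompleteLattice L] (rk : L → ℕ) (lo hi : ℕ) (c : Set L) : Prop :=
  IsChain (· ≤ ·) c ∧ (∀ x ∈ c, lo ≤ rk x ∧ rk x < hi) ∧
    ∀ i, lo ≤ i → i < hi → ∃ x ∈ c, rk x = i

/-- `F` and `Y` are complementary and independent. -/
def Compl {L : Type} [CompleteLattice L] (rk : L → ℕ) (r : ℕ) (F Y : L) : Prop :=
  F ⊔ Y = ⊤ ∧ rk F + rk Y = r

/-- `Y 0 < Y 1 < ... < Y t` with `rk (Y i) = i`. -/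
def IsTower {L : Type} [CompleteLattice L] (rk : L → ℕ) (t : ℕ) (Y : ℕ → L) : Prop :=
  (∀ i, i ≤ t → rk (Y i) = i) ∧ ∀ i j, i ≤ j → j ≤ t → Y i ≤ Y j

/-- GL-RK -/
def StRk : Prop :=
  ∀ (L : Type) [CompleteLattice L] [IsAtomistic L] [IsUpperModularLattice L]
    (r : ℕ), Order.height (⊤ : L) = (r : ℕ∞) → ∃ rk : L → ℕ, RkData L rk r

/-- GL-PAIR -/
def StPair : Prop :=
  ∀ (L : Type) [CompleteLattice L] (rk : L → ℕ) (r : ℕ), RkData L rk r →
    ∀ F Y : L, Compl rk r F Y → ∀ G W : L, G ≤ F → W ≤ Y →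
      rk (G ⊔ W) = rk G + rk W ∧ (G ⊔ W) ⊓ F = G ∧ (G ⊔ W) ⊓ Y = W

/-- GL-TOW (a): towers through a given atom and up to a given element. -/
def StTowA : Prop :=
  ∀ (L : Type) [CompleteLattice L] (rk : L → ℕ) (r : ℕ), RkData L rk r →
    ∀ x y : L, x ≤ y → ∃ Y : ℕ → L, IsTower rk (rk y) Y ∧ Y (rk x) = x ∧ Y (rk y) = y

/-- GL-TOW (b): a complement `Y` of `F`, through a given atom `f` outside `F`. -/
def StTowB : Prop :=
  ∀ (L : Type) [CompleteLattice L] (rk : L → ℕ) (r : ℕ), RkData L rk r →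
    ∀ F : L, (∃ Y : L, Compl rk r F Y) ∧
      ∀ f : L, IsAtom f → ¬ f ≤ F → ∃ Y : L, Compl rk r F Y ∧ f ≤ Y

/-- GL-REC: transfinite recursion. -/
def StRec : Prop :=
  ∀ (X ι : Type) (κ : Cardinal.{0}), ℵ₀ ≤ κ → #ι ≤ κ → ∀ P : ι → Set X → Prop,
    (∀ i : ι, ∀ S : Set X, #S < κ → ∃ c : Set X, P i c ∧ c.Finite ∧ Disjoint c S) →
    ∃ c : ι → Set X, (∀ i, P i (c i)) ∧ ∀ i j, i ≠ j → Disjoint (c i) (c j)

/-- GL-BAD: a flat with `κ` covers has at most one cover with fewer than `κ` covers. -/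
def StBad : Prop :=
  ∀ (L : Type) [CompleteLattice L] (rk : L → ℕ) (r : ℕ), RkData L rk r →
    ∀ (κ : Cardinal.{0}) (F : L), ℵ₀ ≤ κ → (∀ G : L, rk G < rk F → #(pts G) < κ) →
      ∀ G D D' : L, D ∈ covs F G → D' ∈ covs F G → D ≠ D' → rk G + 3 ≤ rk F →
        #(covs F D) < κ → #(covs F D') < κ → #(covs F G) < κ

/-- GL-CHAIN: flags inside `F` above a flat with `κ` covers, avoiding `S`. -/
def StChain : Prop :=
  ∀ (L : Type) [CompleteLattice L] (rk : L → ℕ) (r : ℕ), RkData L rk r →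
    ∀ (κ : Cardinal.{0}) (F : L), ℵ₀ ≤ κ → (∀ G : L, rk G < rk F → #(pts G) < κ) →
      ∀ G : L, G ≤ F → rk G + 2 ≤ rk F → κ ≤ #(covs F G) → ∀ S : Set L, #S < κ →
        ∃ c : Set L, IsFlag rk (rk G + 1) (rk F) c ∧ (∀ x ∈ c, G ≤ x ∧ x ≤ F) ∧ Disjoint c S

/-- GL-ROB: if the smallest rank of a flat with `κ` atoms is at least 3, all atoms but at most one
are starting points of flags avoiding a given set of fewer than `κ` flats. -/
def StRob : Prop :=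
  ∀ (L : Type) [CompleteLattice L] (rk : L → ℕ) (r : ℕ), RkData L rk r →
    ∀ (κ : Cardinal.{0}) (F : L), ℵ₀ ≤ κ → #(pts F) = κ → 3 ≤ rk F →
      (∀ G : L, rk G < rk F → #(pts G) < κ) →
      ∃ g : L, ∀ e : L, IsAtom e → e ≠ g → ∀ S : Set L, #S < κ →
        ∃ c : Set L, IsFlag rk 2 r c ∧ (∀ x ∈ c, e ≤ x) ∧ Disjoint c S

/-- GL-DBE: points and hyperplanes in a finite interval (de Bruijn, Erdős, Motzkin). -/
def StDbe : Prop :=
  ∀ (L : Type) [CompleteLattice L] (rk : L → ℕ) (r : ℕ), RkData L rk r →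
    ∀ x y : L, x ≤ y → rk x + 2 ≤ rk y → (pts y).Finite →
      {p : L | x ⋖ p ∧ p ≤ y}.ncard ≤ {h : L | x ≤ h ∧ h ⋖ y}.ncard

/-- GL-INJ: an injection from the atoms below `Z` to the coatoms below `Z`, never the identity. -/
def StInj : Prop :=
  ∀ (L : Type) [CompleteLattice L] (rk : L → ℕ) (r : ℕ), RkData L rk r →
    ∀ Z : L, ∃ h : L → L, (∀ z ∈ pts Z, h z ⋖ Z ∧ h z ≠ z) ∧ Set.InjOn h (pts Z)

/-- GL-TWO: two disjoint towers. -/
def StTwo : Prop :=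
  ∀ (L : Type) [CompleteLattice L] (rk : L → ℕ) (r : ℕ), RkData L rk r →
    ∀ Z z H : L, IsAtom z → z ≤ Z → H ⋖ Z → H ≠ z →
      ∃ W W' : ℕ → L, IsTower rk (rk Z) W ∧ IsTower rk (rk H) W' ∧ W 1 = z ∧ W (rk Z) = Z ∧
        W' (rk H) = H ∧ ∀ i, 1 ≤ i → i ≤ rk H → W i ≠ W' i

/-- The special flats attached to a complementary pair `l`, `Z`. -/
def special {L : Type} [CompleteLattice L] (l Z : L) : Set L :=
  {x | ∃ W : L, W ≤ Z ∧ (x = l ⊔ W ∨ ∃ e ∈ pts l, x = e ⊔ W)}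

/-- GL-SP: the points of a line `l` with `κ` points and of a complement `Z`. -/
def StSp : Prop :=
  ∀ (L : Type) [CompleteLattice L] (rk : L → ℕ) (r : ℕ), RkData L rk r →
    ∀ l Z : L, rk l = 2 → Compl rk r l Z → (pts l).Infinite → #(pts Z) ≤ #(pts l) →
      ∃ c : L → Set L,
        (∀ e ∈ pts l ∪ pts Z, IsFlag rk 2 r (c e) ∧ (∀ x ∈ c e, e ≤ x) ∧ c e ⊆ special l Z) ∧
        ∀ e ∈ pts l ∪ pts Z, ∀ e' ∈ pts l ∪ pts Z, e ≠ e' → Disjoint (c e) (c e')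

/-- GL-OUT: the other points. -/
def StOut : Prop :=
  ∀ (L : Type) [CompleteLattice L] (rk : L → ℕ) (r : ℕ), RkData L rk r →
    ∀ (κ : Cardinal.{0}) (l Z : L), ℵ₀ ≤ κ → rk l = 2 → Compl rk r l Z → #(pts l) = κ →
      ∀ f : L, IsAtom f → ¬ f ≤ l → ¬ f ≤ Z → ∀ S : Set L, #S < κ →
        ∃ c : Set L, IsFlag rk 2 r c ∧ (∀ x ∈ c, f ≤ x) ∧ Disjoint c S ∧
          Disjoint c (special l Z)

/-- GL-FAM: the family of disjoint flags. -/
def StFam : Prop :=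
  ∀ (L : Type) [CompleteLattice L] (rk : L → ℕ) (r : ℕ), RkData L rk r →
    {a : L | IsAtom a}.Infinite →
      ∃ c : L → Set L, (∀ e, IsAtom e → IsFlag rk 2 r (c e) ∧ ∀ x ∈ c e, e ≤ x) ∧
        ∀ e e', IsAtom e → IsAtom e' → e ≠ e' → Disjoint (c e) (c e')

/-- GL-END: the frozen statement. -/
def StEnd : Prop :=
  ∀ (L : Type) [CompleteLattice L] [IsAtomistic L] [IsUpperModularLattice L] [Infinite L]
      (r : ℕ), Order.height (⊤ : L) = (r : ℕ∞) →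
      ∃ M : Set (Set L),
        (∀ m ∈ M,
          (∀ x ∈ m, x ≠ ⊥ ∧ x ≠ ⊤) ∧ IsChain (· ≤ ·) m ∧
          ∀ m' : Set L, (∀ x ∈ m', x ≠ ⊥ ∧ x ≠ ⊤) → IsChain (· ≤ ·) m' → m ⊆ m' → m' = m) ∧
        M.PairwiseDisjoint id ∧
        ∀ x : L, IsAtom x → ∃ m ∈ M, x ∈ m

end Pool.Agent.W555.GL
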